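import Pool.Agent.Lib.MP_a77f20_co.Final

open Pool.Agent.Lib.MP_a77f20_co

namespace Pool.Agent.Results.MP_a77f20_co.ChainBijection

/-- For all `m ≥ 1` and `n ≥ 2` there are `I ⊆ W` and a bijection `f : W \ T → W \ I` lowering
area by one and raising dinv by one, with `C_T(q, t) = C_I(t, q)`. -/
theorem result (m n : ℕ) (hm : 1 ≤ m) (hn : 2 ≤ n) :
    (dyckWords m n).Finite ∧
    ∃ I ⊆ dyckWords m n, ∃ f : (Fin n → ℤ) → (Fin n → ℤ),
      Set.BijOn f (dyckWords m n \ dyckT m n) (dyckWords m n \ I) ∧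
      (∀ w ∈ dyckWords m n \ dyckT m n,
        area (f w) = area w - 1 ∧ dinv m (f w) = dinv m w + 1) ∧
      gen m (dyckT m n) (MvPolynomial.X 0) (MvPolynomial.X 1) =
        gen m I (MvPolynomial.X 1) (MvPolynomial.X 0) :=
  ⟨dyck_finite m n, main m n hn⟩

end Pool.Agent.Results.MP_a77f20_co.ChainBijection
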