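import Pool.Agent.Lib.GC95.Main

open Pool.Agent.Lib.GC95

namespace Pool.Agent.Results.MP_a77f20_co.GlobalChains

/-- Global chain decomposition of the set of all partitions, for every `m ≥ 1`: chains `C μ`
indexed by partitions, closed under `Nu`, containing the tail initiators, and paired by a
size-preserving involution that exchanges area and dinv inside every triangle. -/
theorem result (m : ℕ) (hm : 1 ≤ m) :
    ∃ (C : YoungDiagram → Set YoungDiagram) (star : YoungDiagram → YoungDiagram),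
      (∀ μ, star (star μ) = μ) ∧ (∀ μ, (star μ).card = μ.card) ∧ (∀ γ, ∃! μ, γ ∈ C μ) ∧
      (∀ μ, ∀ γ ∈ C μ, γ.card = dinvY m γ + μ.card) ∧ (∀ μ, Set.InjOn (dinvY m) (C μ)) ∧
      (∀ μ i, (∃ γ ∈ C μ, dinvY m γ = i) ↔ (star μ).colLen 0 ≤ i) ∧
      (∀ μ γ γ', Nu m γ γ' → (γ ∈ C μ ↔ γ' ∈ C μ)) ∧ (∀ μ, ∃ γ ∈ C μ, IsTI m μ γ) ∧
      ∀ μ T, IsTri m T → cat m T (C μ) (MvPolynomial.X 0) (MvPolynomial.X 1) =
        cat m T (C (star μ)) (MvPolynomial.X 1) (MvPolynomial.X 0) :=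
  global_chains m hm

end Pool.Agent.Results.MP_a77f20_co.GlobalChains
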